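import Pool.Agent.MWGQ.Stmts

/-!
# Squad MWGQ, row SPV: the special order is kept by the congruence (twin of MWGN.SPV, helper16)
-/

set_option autoImplicit false

namespace Pool.Agent.MWGQ.H92

open Pool.Agent.Helper14_MV Pool.Agent.Helper2_MV
open Pool.Agent.MWK (pre)
open Pool.Agent.MWGN (Nm WC WT Tau Ns nl sg nn)

/-- **SPV** -/
theorem spv (noa : Pool.Agent.MWGN.NoaStmt) (nor : NorStmt) (nob : NobStmt) (ren : RenStmt)
    (dst : Pool.Agent.MWGN.DstStmt) (wcv : WcvStmt) (kar : KarStmt) (kpr : KprStmt) : SpvStmt := by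
  intro n β hG ν τ m nc hN hT h1 h2 hK w w' hw hC hWT hR hxy
  have hP0 : ¬ P0 n β := fun h => hK (kpr n β hG h m τ hT)
  have hA0 : ¬ A0 n β := fun h => hK (kar n β hG h m τ hT)
  have hE0 : ¬ E0 n β := fun h => hA0 (by
    have h3 := RR.append h (RR.refl [2, 1])
    rw [List.append_assoc] at h3
    exact h3)
  obtain ⟨c1, c2, c3⟩ := wcv n β hG hE0 hP0 hA0 ν τ m nc hN h2 w w' hw
  have hC' := c1 hC
  have hT' := c2 hWT
  have hR' := c3 hR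
  have hnd := dst ν τ m nc hN hT h1 w hC hWT
  obtain ⟨i, j, e, f, hi, hj, he, hf, P, hP, eq⟩ := noa ν τ m nc hN hT h1 w hC hWT
  obtain ⟨i', j', e', f', hi', hj', he', hf', P', hP', eq'⟩ := noa ν τ m nc hN hT h1 w' hC' hT'
  obtain ⟨x1, x2, x3, x4⟩ := nor ν τ m hT hnd w P i j e f
    (hP.elim (fun h => Or.inl h.2) fun h => Or.inr h.2) eq
  obtain ⟨y1, y2, y3, y4⟩ := nor ν τ m hT hnd w' P' i' j' e' f'
    (hP'.elim (fun h => Or.inl h.2) fun h => Or.inr h.2) eq'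
  rcases hP' with ⟨h3, -⟩ | ⟨-, hP'⟩
  · exact h3
  exfalso
  have hPe : P = [ν.x, ν.y] := by
    rcases hP with ⟨-, h⟩ | ⟨h, -⟩
    · exact h
    · omega
  have cn : ∀ {a : ℕ}, a + 1 ≡ 2 [MOD n] → a ≡ 1 [MOD n] := fun {a} h =>
    Nat.ModEq.add_right_cancel' 1 h
  have hf1 := RR.filter (fun c => decide (c ∈ nl ν m)) hw
  rw [eq, eq', hPe, hP'] at hf1
  have n1 := nob n β hG ν τ m hT i j e f hi (cn (x1 ▸ hR.x)) hj (cn (x2 ▸ hR.y))
    (fun r hr => ⟨he r hr, x3 r hr ▸ hR.c r (lt_of_lt_of_le hr h1)⟩)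
    (fun r hr => ⟨hf r hr, cn (x4 r hr ▸ hR.l r (by omega))⟩) [ν.x, ν.y] (by simp) (by simp)
  have n2 := nob n β hG ν τ m hT i' j' e' f' hi' (cn (y1 ▸ hR'.x)) hj' (cn (y2 ▸ hR'.y))
    (fun r hr => ⟨he' r hr, y3 r hr ▸ hR'.c r (lt_of_lt_of_le hr h1)⟩)
    (fun r hr => ⟨hf' r hr, cn (y4 r hr ▸ hR'.l r (by omega))⟩) [ν.y, ν.x] (by simp) (by simp)
  have key : RR β ([ν.x, ν.y] ++ krl n ν τ m) ([ν.y, ν.x] ++ krl n ν τ m) :=
    β.trans n1.symm (β.trans hf1 n2)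
  exact hK (ren n β ν τ m hT hnd key)

end Pool.Agent.MWGQ.H92
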